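import Mathlib

namespace Pool.Agent.H.MP_1d723d_an

open MeasureTheory Set Real Finset

def U (i : ℕ) : ℚ := if i < 90 then (4 / 25) / ((2 * i + 1) / 60 +
  (((2 * i + 1) / 60 + 4 / 25) ^ 2 + ((2 * i + 1) / 60) ^ 2 + (4 / 25) ^ 2) /
    (2 * ((2 * i + 1) / 60 + 4 / 25))) else 0

def cq (i : ℕ) : ℚ := (1 - U i ^ 2) / (1 + U i ^ 2)

def sq (i : ℕ) : ℚ := 2 * U i / (1 + U i ^ 2)

def co (j : ℕ) : ℚ := if j < 44 then (-1 / 2) ^ j / j.factorial else
  -2 * (1 / 2) ^ 44 / (44 : ℕ).factorial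

def P (e : ℕ) (t : ℚ) : ℚ := ∑ j ∈ range 45, co j * t ^ (2 * j + e + 1) / (2 * j + e + 1)

def low (e : ℕ) (c : ℕ → ℚ) : ℚ := ∑ i ∈ range 150, c i * (P e ((i + 1) / 30) - P e (i / 30))

theorem num1 : 9738 / 10000 ≤ low 1 cq := by decide +kernel

theorem num0 : 4103 / 10000 ≤ low 0 sq := by decide +kernel

theorem U01 (i : ℕ) : 0 ≤ U i ∧ U i ≤ 1 := by
  by_cases h : i < 90
  · revert i; decide +kernel
  · simp [U, h]

theorem cs (i : ℕ) : 0 ≤ cq i ∧ 0 ≤ sq i ∧ cq i ^ 2 + sq i ^ 2 = 1 := by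
  have h := U01 i
  refine ⟨div_nonneg (by nlinarith [h.1, h.2]) (by positivity),
    div_nonneg (by linarith [h.1]) (by positivity), ?_⟩
  unfold cq sq
  field_simp
  ring

theorem Lle {t : ℝ} (h0 : 0 ≤ t) (h : t ≤ 5) :
    ∑ j ∈ range 45, (co j : ℝ) * t ^ (2 * j) ≤ exp (-t ^ 2 / 2) := by
  have h1 := Complex.exp_bound' (x := ((-t ^ 2 / 2 : ℝ) : ℂ)) (n := 44) (by
    rw [Complex.norm_real, Real.norm_eq_abs, neg_div, abs_neg, abs_of_nonneg (by positivity),
      div_le_iff₀ (by positivity)]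
    push_cast; nlinarith)
  rw [← Complex.ofReal_exp, show ∑ m ∈ range 44, ((-t ^ 2 / 2 : ℝ) : ℂ) ^ m / m.factorial =
    ((∑ m ∈ range 44, (-t ^ 2 / 2) ^ m / m.factorial : ℝ) : ℂ) by push_cast; rfl,
    ← Complex.ofReal_sub, Complex.norm_real, Complex.norm_real, Real.norm_eq_abs,
    Real.norm_eq_abs, neg_div, abs_neg, abs_of_nonneg (a := t ^ 2 / 2) (by positivity)] at h1
  have h2 := (abs_le.1 h1).1
  rw [sum_range_succ, sum_congr rfl (g := fun m => (-(t ^ 2 / 2)) ^ m / m.factorial) fun j hj => by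
    rw [co, if_pos (mem_range.1 hj), pow_mul]; push_cast; ring]
  have : (co 44 : ℝ) * t ^ (2 * 44) = -((t ^ 2 / 2) ^ 44 / (44 : ℕ).factorial * 2) := by
    rw [co, if_neg (lt_irrefl _)]; push_cast; ring
  rw [this, neg_div]
  linarith

theorem meas (c : ℕ → ℚ) : Measurable fun t : ℝ => (c ⌊30 * t⌋₊ : ℝ) :=
  (measurable_from_top (f := fun i => (c i : ℝ))).comp (Nat.measurable_floor.comp (by fun_prop))

theorem rint (k : ℕ) : IntegrableOn (fun t : ℝ => t ^ k * exp (-t ^ 2 / 2)) (Ioi 0) := by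
  have := integrableOn_rpow_mul_exp_neg_mul_sq (b := 1 / 2) (s := k) (by norm_num)
    (by linarith [Nat.cast_nonneg (α := ℝ) k])
  simpa [neg_div, div_eq_inv_mul] using this

theorem low_le (e : ℕ) (c : ℕ → ℚ) (h0 : ∀ i, 0 ≤ c i) (h1 : ∀ i, c i ≤ 1) :
    (low e c : ℝ) ≤ ∫ t in Ioi (0 : ℝ), c ⌊30 * t⌋₊ * (t ^ e * exp (-t ^ 2 / 2)) := by
  have hi : IntegrableOn (fun t : ℝ => c ⌊30 * t⌋₊ * (t ^ e * exp (-t ^ 2 / 2))) (Ioi 0) :=
    (rint e).bdd_mul (c := 1) (meas c).aestronglyMeasurable (.of_forall fun t => by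
      rw [Real.norm_of_nonneg (by exact_mod_cast h0 _)]; exact_mod_cast h1 _)
  have hi2 : ∀ k : ℕ, IntervalIntegrable (fun t : ℝ => c ⌊30 * t⌋₊ * (t ^ e * exp (-t ^ 2 / 2)))
      volume (k / 30) ((k + 1 : ℕ) / 30) := fun k =>
    (intervalIntegrable_iff_integrableOn_Ioc_of_le (by gcongr; omega)).2
      (hi.mono_set fun t ht => lt_of_le_of_lt (by positivity) ht.1)
  refine le_trans ?_ (setIntegral_mono_set (s := Set.Ioc 0 5) hi (ae_restrict_of_forall_mem
    measurableSet_Ioi fun t ht => mul_nonneg (by exact_mod_cast h0 _)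
      (mul_nonneg (pow_nonneg ht.le _) (exp_pos _).le)) Ioc_subset_Ioi_self.eventuallyLE)
  have h2 := intervalIntegral.sum_integral_adjacent_intervals (a := fun k : ℕ => (k / 30 : ℝ))
    (n := 150) fun k _ => hi2 k
  rw [← intervalIntegral.integral_of_le (by norm_num), show (5 : ℝ) = (150 : ℕ) / 30 by norm_num,
    show (0 : ℝ) = (0 : ℕ) / 30 by norm_num, ← h2, low, Rat.cast_sum]
  refine sum_le_sum fun i hi' => ?_
  have i1 : (i : ℝ) + 1 ≤ 150 := by exact_mod_cast mem_range.1 hi'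
  have hd : ∀ t : ℝ, HasDerivAt (fun t : ℝ => c i * ∑ j ∈ range 45,
      (co j : ℝ) * t ^ (2 * j + e + 1) / (2 * j + e + 1))
      (c i * (t ^ e * ∑ j ∈ range 45, (co j : ℝ) * t ^ (2 * j))) t := fun t => by
    refine HasDerivAt.const_mul _ ?_
    rw [mul_sum]
    refine HasDerivAt.fun_sum fun j _ => (((hasDerivAt_pow _ t).const_mul _).div_const
      _).congr_deriv ?_
    rw [Nat.add_sub_cancel]
    push_cast
    field_simp
    ring
  have h3 := intervalIntegral.integral_eq_sub_of_hasDerivAt (a := i / 30) (b := (i + 1 : ℕ) / 30)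
    (fun t _ => hd t) (Continuous.intervalIntegrable (by fun_prop) _ _)
  refine le_trans (le_of_eq ?_) (h3.symm.trans_le (intervalIntegral.integral_mono_on_of_le_Ioo
    (by gcongr; omega) (Continuous.intervalIntegrable (by fun_prop) _ _) (hi2 i) fun t ht => ?_))
  · simp only [P]; push_cast; ring
  · have t0 : 0 ≤ t := le_trans (by positivity) ht.1.le
    have t1 := ht.1
    have t2 := ht.2
    push_cast at t2
    rw [(Nat.floor_eq_iff (by positivity)).2 ⟨by linarith, by linarith⟩]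
    exact mul_le_mul_of_nonneg_left (mul_le_mul_of_nonneg_left (Lle t0 (by linarith))
      (pow_nonneg t0 _)) (by exact_mod_cast h0 _)

end Pool.Agent.H.MP_1d723d_an
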