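import Pool.Agent.H.MP_1d723d_an.A
import Pool.Agent.H.MP_937656_gt.F

namespace Pool.Agent.H.MP_1d723d_an

open MeasureTheory Set Real ProbabilityTheory Metric Matrix

noncomputable abbrev gg : Measure ℝ := gaussianReal 0 1

noncomputable abbrev GG (n : ℕ) : Measure (Fin n → ℝ) := Measure.pi fun _ => gg

abbrev E (n : ℕ) := EuclideanSpace ℝ (Fin n)

noncomputable def sig (n : ℕ) : Measure (sphere (0 : E n) 1) :=
  ((volume : Measure (E n)).toSphere univ)⁻¹ • (volume : Measure (E n)).toSphere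

theorem dens (n : ℕ) : GG n = volume.withDensity fun x =>
    ENNReal.ofReal (∏ i, gaussianPDFReal 0 1 (x i)) := by
  refine Measure.pi_eq fun s hs => ?_
  have h0 := gaussianPDFReal_nonneg 0 1
  have hi := integrable_gaussianPDFReal 0 1
  rw [withDensity_apply _ (MeasurableSet.univ_pi hs), volume_pi,
    ← ofReal_integral_eq_lintegral_ofReal (Integrable.fintype_prod fun _ => hi).integrableOn
    (.of_forall fun x => Finset.prod_nonneg fun i _ => h0 _), Measure.restrict_pi_pi,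
    integral_fintype_prod_eq_prod, ENNReal.ofReal_prod_of_nonneg fun i _ => integral_nonneg h0]
  exact Finset.prod_congr rfl fun i _ => (gaussianReal_apply_eq_integral 0 one_ne_zero _).symm

noncomputable def rho (j : ℕ) : ℝ := ∫ r in Ioi (0 : ℝ), r ^ j * exp (-r ^ 2 / 2)

theorem rho_eq (j : ℕ) : rho j = √2 ^ (j + 1) * (1 / 2) * Gamma ((j + 1) / 2) := by
  have := integral_rpow_mul_exp_neg_mul_rpow (p := 2) (q := j) (b := 1 / 2) two_pos
    (by linarith [Nat.cast_nonneg (α := ℝ) j]) (by norm_num)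
  rw [one_div, inv_rpow zero_le_two, ← rpow_neg zero_le_two] at this
  rw [sqrt_eq_rpow, ← rpow_natCast, ← rpow_mul zero_le_two, one_div, show (2 : ℝ)⁻¹ * (j + 1 : ℕ) =
    -(-(j + 1) / 2) by push_cast; ring, ← this]
  simp [rho, div_eq_inv_mul]

theorem rho_pos (j : ℕ) : 0 < rho j := by
  rw [rho_eq]; have := Gamma_pos_of_pos (s := (j + 1) / 2) (by positivity); positivity

theorem rho_add (j : ℕ) : rho (j + 2) = (j + 1) * rho j := by
  rw [rho_eq, rho_eq, show (((j + 2 : ℕ) : ℝ) + 1) / 2 = (j + 1) / 2 + 1 by push_cast; ring,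
    Gamma_add_one (by positivity), show j + 2 + 1 = j + 1 + 2 from rfl, pow_add _ _ 2,
    sq_sqrt zero_le_two]
  ring

theorem hom0 (m k : ℕ) (h : (Fin (m + 1) → ℝ) → ℝ)
    (hh : ∀ r : ℝ, 0 < r → ∀ x, h (r • x) = r ^ k * h x) (hi : Integrable h (GG (m + 1))) :
    ∫ x, h x ∂GG (m + 1) = (√(2 * π))⁻¹ ^ (m + 1) * rho (m + k) *
      ∫ u : sphere (0 : E (m + 1)) 1, h u.1.ofLp ∂(volume : Measure (E (m + 1))).toSphere := by
  have hm : Measurable fun x : Fin (m + 1) → ℝ =>
      ENNReal.ofReal (∏ i, gaussianPDFReal 0 1 (x i)) := by fun_prop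
  have e : ∀ x : Fin (m + 1) → ℝ, (ENNReal.ofReal (∏ i, gaussianPDFReal 0 1 (x i))).toReal =
      (√(2 * π))⁻¹ ^ (m + 1) * exp (-(∑ i, x i ^ 2) / 2) := fun x => by
    rw [ENNReal.toReal_ofReal (Finset.prod_nonneg fun i _ => gaussianPDFReal_nonneg _ _ _)]
    simp [gaussianPDFReal, Finset.prod_mul_distrib, ← exp_sum, Finset.sum_div, neg_div]
  rw [dens] at hi ⊢
  rw [integrable_withDensity_iff_integrable_smul' hm (.of_forall fun _ => ENNReal.ofReal_lt_top)]
    at hi
  rw [integral_withDensity_eq_integral_toReal_smul hm (.of_forall fun _ => ENNReal.ofReal_lt_top)]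
  have mp := PiLp.volume_preserving_ofLp (Fin (m + 1))
  have me := (MeasurableEquiv.toLp 2 (Fin (m + 1) → ℝ)).symm.measurableEmbedding
  rw [← mp.integral_comp me, ← integral_const_mul]
  refine (MP_937656_gt.polar volume ((mp.integrable_comp_emb me).2 hi)).trans ?_
  refine integral_congr_ae (.of_forall fun u => ?_)
  have hu : ∑ i, u.1.ofLp i ^ 2 = 1 := by
    rw [← EuclideanSpace.real_norm_sq_eq, norm_eq_of_mem_sphere u, one_pow]
  simp only [rho]
  rw [← integral_const_mul, ← integral_mul_const]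
  refine setIntegral_congr_fun measurableSet_Ioi fun r hr => ?_
  simp only [Function.comp, e, WithLp.ofLp_smul, hh r hr, Pi.smul_apply, smul_eq_mul, mul_pow,
    ← Finset.mul_sum, hu, finrank_euclideanSpace_fin, Nat.add_sub_cancel]
  ring_nf

theorem hom (m k : ℕ) (h : (Fin (m + 1) → ℝ) → ℝ)
    (hh : ∀ r : ℝ, 0 < r → ∀ x, h (r • x) = r ^ k * h x) (hi : Integrable h (GG (m + 1))) :
    ∫ x, h x ∂GG (m + 1) = rho (m + k) / rho m * ∫ u, h u.1.ofLp ∂sig (m + 1) := by
  have h1 := hom0 m 0 (fun _ => 1) (by simp) (integrable_const _)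
  simp only [integral_const, probReal_univ, smul_eq_mul, mul_one, add_zero] at h1
  rw [hom0 m k h hh hi, sig, integral_smul_measure, ENNReal.toReal_inv, ← measureReal_def,
    smul_eq_mul, eq_inv_of_mul_eq_one_left h1.symm |>.symm]
  have := (rho_pos m).ne'
  field_simp

theorem half (f : ℝ → ℝ) : ∫ x, f |x| ∂gg =
    (√(2 * π))⁻¹ * 2 * ∫ t in Ioi (0 : ℝ), f t * exp (-t ^ 2 / 2) := by
  rw [integral_gaussianReal_eq_integral_smul one_ne_zero, mul_assoc,
    ← integral_comp_abs (f := fun t => f t * exp (-t ^ 2 / 2)), ← integral_const_mul]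
  refine integral_congr_ae (.of_forall fun x => ?_)
  simp [gaussianPDFReal]
  ring

theorem mom : ∫ x, x ^ 2 ∂gg = 1 ∧ ∫ x, x ^ 4 ∂gg = 3 := by
  have h0 := half fun t => t ^ 0
  have h2 := half fun t => t ^ 2
  have h4 := half fun t => t ^ 4
  change _ = _ * rho _ at h0 h2 h4
  simp only [pow_zero, integral_const, probReal_univ, smul_eq_mul, mul_one, sq_abs,
    show ∀ x : ℝ, |x| ^ 4 = x ^ 4 from fun x => Even.pow_abs (by decide) x] at h0 h2 h4
  rw [h2, h4, rho_add 2, rho_add 0]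
  push_cast
  constructor <;> linarith

theorem ml (d : ℝ) : MemLp (fun x : ℝ => d * x ^ 2) 2 gg := by
  refine MemLp.const_mul ((memLp_two_iff_integrable_sq (by fun_prop)).2 ?_) _
  have := (memLp_id_gaussianReal (μ := 0) (v := 1) 4).integrable_norm_pow (p := 4) (by norm_num)
  simpa [← pow_mul, show ∀ x : ℝ, |x| ^ 4 = x ^ 4 from fun x => Even.pow_abs (by decide) x]
    using this

theorem var {n : ℕ} (d : Fin n → ℝ) : MemLp (fun x => ∑ i, d i * x i ^ 2) 2 (GG n) ∧
    ∫ x, ∑ i, d i * x i ^ 2 ∂GG n = ∑ i, d i ∧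
    ∫ x, (∑ i, d i * x i ^ 2) ^ 2 ∂GG n = (∑ i, d i) ^ 2 + 2 * ∑ i, d i ^ 2 := by
  have h1 : ∀ i, MemLp (fun x : Fin n → ℝ => d i * x i ^ 2) 2 (GG n) := fun i =>
    (ml (d i)).comp_measurePreserving (measurePreserving_eval _ i)
  have h2 := memLp_finsetSum Finset.univ fun i _ => h1 i
  have h3 : ∫ x, ∑ i, d i * x i ^ 2 ∂GG n = ∑ i, d i := by
    rw [integral_finsetSum _ fun i _ => (h1 i).integrable one_le_two]
    refine Finset.sum_congr rfl fun i _ => ?_
    rw [integral_comp_eval (μ := fun _ : Fin n => gg) (f := fun x : ℝ => d i * x ^ 2)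
      (ml _).1, integral_const_mul, mom.1, mul_one]
  refine ⟨h2, h3, ?_⟩
  have h4 := variance_sum_pi (μ := fun _ : Fin n => gg) fun i => ml (d i)
  rw [show (∑ i, fun x : Fin n → ℝ => d i * x i ^ 2) = fun x => ∑ i, d i * x i ^ 2 from
    funext fun x => Finset.sum_apply _ _ _, variance_eq_sub h2, h3, sub_eq_iff_eq_add'] at h4
  refine h4.trans (congrArg _ ?_)
  rw [Finset.mul_sum]
  refine Finset.sum_congr rfl fun i _ => ?_
  rw [variance_eq_sub (ml _), integral_const_mul, mom.1]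
  simp only [Pi.pow_apply, mul_pow, ← pow_mul]
  rw [integral_const_mul, mom.2]
  ring

end Pool.Agent.H.MP_1d723d_an
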