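import Pool.Agent.H.MP_1d723d_an.B

namespace Pool.Agent.H.MP_1d723d_an

open MeasureTheory Set Real ProbabilityTheory Metric Matrix

noncomputable def nrm {n : ℕ} (A : Matrix (Fin n) (Fin n) ℝ) (x : Fin n → ℝ) : ℝ :=
  √(∑ i, (A *ᵥ x) i ^ 2)

noncomputable def ph (t : ℝ) : ℝ := if t < 0 then -cq ⌊30 * |t|⌋₊ else cq ⌊30 * |t|⌋₊

noncomputable def ps (t : ℝ) : ℝ := sq ⌊30 * |t|⌋₊

noncomputable def v {m : ℕ} (i : Fin (m + 1)) (x : Fin (m + 1) → ℝ) : ℝ :=
  Fin.cases (ph (x 0)) (fun i => ps (x 0) * (x i.succ * (200 / (10000 + ∑ j : Fin m,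
    x j.succ ^ 2)))) i

theorem ph_mul (t : ℝ) : ph t * t = cq ⌊30 * |t|⌋₊ * |t| ^ 1 := by
  unfold ph
  split_ifs with h
  · rw [abs_of_neg h]; ring
  · rw [abs_of_nonneg (not_lt.1 h)]; ring

theorem ph_ps (t : ℝ) : ph t ^ 2 + ps t ^ 2 = 1 := by
  have : ((cq ⌊30 * |t|⌋₊ ^ 2 + sq ⌊30 * |t|⌋₊ ^ 2 : ℚ) : ℝ) = (1 : ℚ) := by rw [(cs _).2.2]
  unfold ph ps
  split_ifs <;> simpa using this

theorem mph : Measurable ph := Measurable.ite measurableSet_Iio
  ((meas cq).comp measurable_abs).neg ((meas cq).comp measurable_abs)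

theorem mps : Measurable ps := (meas sq).comp measurable_abs

variable {m : ℕ}

theorem mv (i : Fin (m + 1)) : Measurable (v i) := by
  have := mph
  have := mps
  unfold v
  cases i using Fin.cases <;> simp only [Fin.cases_zero, Fin.cases_succ] <;> fun_prop

theorem vsq (x : Fin (m + 1) → ℝ) : ∑ i, v i x ^ 2 ≤ 1 := by
  simp only [Fin.sum_univ_succ, v, Fin.cases_zero, Fin.cases_succ, mul_pow, ← Finset.mul_sum,
    ← Finset.sum_mul]
  have h0 : 0 ≤ ∑ j : Fin m, x j.succ ^ 2 := by positivity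
  generalize ∑ j : Fin m, x j.succ ^ 2 = S at *
  have : S * (200 / (10000 + S)) ^ 2 ≤ 1 := by
    rw [div_pow, ← mul_div_assoc, div_le_one (by positivity)]
    nlinarith [sq_nonneg (S - 10000)]
  nlinarith [ph_ps (x 0), sq_nonneg (ps (x 0))]

theorem ml1 {n : ℕ} (j : Fin n) : MemLp (fun x : Fin n → ℝ => x j) 2 (GG n) :=
  (memLp_id_gaussianReal 2).comp_measurePreserving (measurePreserving_eval _ j)

theorem vint (i j : Fin (m + 1)) : Integrable (fun x => v i x * x j) (GG (m + 1)) :=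
  ((ml1 j).integrable one_le_two).bdd_mul (c := 1) (mv i).aestronglyMeasurable
    (.of_forall fun x => by
      rw [Real.norm_eq_abs, ← sq_le_one_iff_abs_le_one]
      exact (Finset.single_le_sum (f := fun i => v i x ^ 2) (fun _ _ => sq_nonneg _)
        (Finset.mem_univ i)).trans (vsq x))

theorem off {i j : Fin (m + 1)} (h : i ≠ j) : ∫ x, v i x * x j ∂GG (m + 1) = 0 := by
  have mp := measurePreserving_pi (fun _ : Fin (m + 1) => gg) (fun _ => gg)
    (f := fun k t => if k = j then -t else t) fun k => by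
      split_ifs
      · exact ⟨measurable_neg, by simpa using gaussianReal_map_neg (μ := 0) (v := 1)⟩
      · exact MeasurePreserving.id _
  have h1 := integral_map (μ := GG (m + 1)) mp.measurable.aemeasurable
    (f := fun x => v i x * x j) ((mv i).mul (measurable_pi_apply j)).aestronglyMeasurable
  have e1 : ∀ (x : Fin (m + 1) → ℝ) k, (if k = j then -x k else x k) ^ 2 = x k ^ 2 :=
    fun x k => by split_ifs <;> simp
  have e2 : ∀ x : Fin (m + 1) → ℝ, v i (fun k => if k = j then -x k else x k) = v i x := fun x => by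
    cases i using Fin.cases with
    | zero => simp only [v, Fin.cases_zero, if_neg h]
    | succ i =>
      simp only [v, Fin.cases_succ, if_neg h, e1]
      split_ifs <;> simp [ps]
  rw [mp.map_eq] at h1
  simp only [e2, if_true, mul_neg, integral_neg] at h1
  linarith

noncomputable def d (i : Fin (m + 1)) : ℝ := ∫ x, v i x * x i ∂GG (m + 1)

theorem nint {n : ℕ} (B : Matrix (Fin n) (Fin n) ℝ) : Integrable (nrm B) (GG n) := by
  refine ((memLp_two_iff_integrable_sq (Continuous.aestronglyMeasurable (by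
    unfold nrm; fun_prop))).2 ?_).integrable one_le_two
  simp only [nrm, sq_sqrt (Finset.sum_nonneg fun i _ => sq_nonneg _)]
  exact integrable_finsetSum _ fun i _ =>
    (memLp_finsetSum Finset.univ fun j _ => (ml1 j).const_mul (B i j)).integrable_sq

theorem key (B : Matrix (Fin (m + 1)) (Fin (m + 1)) ℝ) :
    ∑ i, d i * B i i ≤ ∫ x, nrm B x ∂GG (m + 1) := by
  have h1 : ∑ i, d i * B i i = ∫ x, ∑ i, ∑ j, B i j * (v i x * x j) ∂GG (m + 1) := by
    rw [integral_finsetSum _ fun i _ => integrable_finsetSum _ fun j _ => (vint i j).const_mul _]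
    refine Finset.sum_congr rfl fun i _ => ?_
    rw [integral_finsetSum _ fun j _ => (vint i j).const_mul _, Finset.sum_eq_single i
      (fun j _ h => by rw [integral_const_mul, off h.symm, mul_zero]) (by simp),
      integral_const_mul, mul_comm, d]
  rw [h1]
  refine integral_mono (integrable_finsetSum _ fun i _ => integrable_finsetSum _ fun j _ =>
    (vint i j).const_mul _) (nint B) fun x => ?_
  have := sum_mul_le_sqrt_mul_sqrt Finset.univ (fun i => v i x) (B *ᵥ x)
  refine le_trans (le_of_eq (Finset.sum_congr rfl fun i _ => ?_)) (this.trans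
    (mul_le_of_le_one_left (sqrt_nonneg _) (sqrt_le_one.2 (vsq x))))
  rw [mulVec, dotProduct, Finset.mul_sum]
  exact Finset.sum_congr rfl fun j _ => by ring

theorem le1 (i : ℕ) : cq i ≤ 1 ∧ sq i ≤ 1 := by
  obtain ⟨a, b, c⟩ := cs i
  constructor <;> nlinarith

theorem d0 : (√(2 * π))⁻¹ * 2 * (9738 / 10000) ≤ d (0 : Fin (m + 1)) := by
  have h := low_le 1 cq (fun i => (cs i).1) fun i => (le1 i).1
  have h1 : ((9738 / 10000 : ℚ) : ℝ) ≤ low 1 cq := by exact_mod_cast num1
  simp only [d, v, Fin.cases_zero]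
  rw [integral_comp_eval (μ := fun _ : Fin (m + 1) => gg) (f := fun t => ph t * t)
    (mph.mul measurable_id).aestronglyMeasurable]
  simp only [ph_mul]
  rw [half fun t => cq ⌊30 * t⌋₊ * t ^ 1]
  simp only [mul_assoc] at h ⊢
  gcongr
  exact le_trans (by norm_num) (h1.trans h)

theorem ds (hm : (m : ℝ) = 10000) : (√(2 * π))⁻¹ * 2 * (4103 / 10000) * (9999 / 100) ≤
    ∑ i : Fin m, d i.succ := by
  have h := low_le 0 sq (fun i => (cs i).2.1) fun i => (le1 i).2
  have h1 : ((4103 / 10000 : ℚ) : ℝ) ≤ low 0 sq := by exact_mod_cast num0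
  obtain ⟨v1, v2, v3⟩ := var (n := m) fun _ => 1
  simp only [one_mul, Finset.sum_const, Finset.card_univ, Fintype.card_fin, nsmul_eq_mul, mul_one,
    one_pow, hm] at v1 v2 v3
  have h2 : ∑ i : Fin m, d i.succ = (∫ t, ps t ∂gg) * ∫ y, (∑ j, y j ^ 2) *
      (200 / (10000 + ∑ j, y j ^ 2)) ∂GG m := by
    simp only [d]
    rw [← integral_finsetSum _ fun i _ => vint _ _, ← integral_prod_mul,
      ← (measurePreserving_piFinSuccAbove (fun _ : Fin (m + 1) => gg) 0).integral_comp']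
    refine integral_congr_ae (.of_forall fun x => ?_)
    simp only [v, Fin.cases_succ, MeasurableEquiv.piFinSuccAbove_apply, Fin.insertNthEquiv_symm_apply,
      Fin.removeNth, Fin.succAbove_zero, Finset.sum_mul, Finset.mul_sum]
    exact Finset.sum_congr rfl fun i _ => by ring
  have h3 : (9999 / 100 : ℝ) ≤ ∫ y, (∑ j, y j ^ 2) * (200 / (10000 + ∑ j, y j ^ 2)) ∂GG m := by
    have i1 := v1.integrable one_le_two
    have i2 := v1.integrable_sq
    have e : ∫ y, (3 / 200 * ∑ j, y j ^ 2 - 1 / 2000000 * (∑ j, y j ^ 2) ^ 2) ∂GG m = 9999 / 100 := by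
      rw [integral_sub (i1.const_mul _) (i2.const_mul _), integral_const_mul, integral_const_mul,
        v2, v3]
      norm_num
    refine e.ge.trans (integral_mono ((i1.const_mul _).sub (i2.const_mul _)) (i1.mul_bdd (c := 1)
      (Measurable.aestronglyMeasurable (by fun_prop)) (.of_forall fun y => ?_)) fun y => ?_)
    · have h0 : 0 ≤ ∑ j, y j ^ 2 := by positivity
      rw [Real.norm_of_nonneg (by positivity), div_le_one (by positivity)]
      linarith
    · have h0 : 0 ≤ ∑ j, y j ^ 2 := by positivity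
      simp only
      generalize ∑ j, y j ^ 2 = S at *
      rw [← mul_div_assoc, le_div_iff₀ (by positivity)]
      nlinarith [mul_nonneg h0 (sq_nonneg (S - 10000))]
  have h4 : (√(2 * π))⁻¹ * 2 * (4103 / 10000) ≤ ∫ t, ps t ∂gg := by
    simp only [ps]
    rw [half fun t => sq ⌊30 * t⌋₊]
    simp only [pow_zero, one_mul] at h
    gcongr
    exact le_trans (by norm_num) (h1.trans h)
  rw [h2]
  exact mul_le_mul h4 h3 (by norm_num) (le_trans (by positivity) h4)

theorem Q (hm : (m : ℝ) = 10000) : π ^ 2 / 8 < (∑ i : Fin (m + 1), d i ^ 2) ^ 2 +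
    2 * ∑ i : Fin (m + 1), (d i ^ 2) ^ 2 := by
  have hp := pi_pos
  have c2 : ((√(2 * π))⁻¹ * 2) ^ 2 = 2 / π := by
    rw [mul_pow, inv_pow, sq_sqrt (by positivity)]; field_simp
  have a1 := pow_le_pow_left₀ (by positivity) (d0 (m := m)) 2
  have a2 := (pow_le_pow_left₀ (by positivity) (ds hm) 2).trans sq_sum_le_card_mul_sum_sq
  rw [mul_pow, c2] at a1
  rw [mul_pow, mul_pow, c2, Finset.card_univ, Fintype.card_fin, hm] at a2
  have a3 : 0 ≤ ∑ i : Fin m, (d i.succ ^ 2) ^ 2 := by positivity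
  rw [Fin.sum_univ_succ, Fin.sum_univ_succ]
  have a4 : 2 / π * (11165 / 10000) ≤ d (0 : Fin (m + 1)) ^ 2 + ∑ i : Fin m, d i.succ ^ 2 := by
    have : 0 < 2 / π := by positivity
    linarith
  have a5 := pow_le_pow_left₀ (by positivity) a4 2
  have a6 := pow_le_pow_left₀ (by positivity) a1 2
  have a7 : π ^ 2 / 8 < (2 / π) ^ 2 * (30450 / 10000) := by
    rw [div_pow, div_mul_eq_mul_div, lt_div_iff₀ (by positivity)]
    have := pow_lt_pow_left₀ pi_lt_d4 hp.le (n := 4) (by norm_num)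
    nlinarith
  rw [mul_pow] at a5 a6
  have : 0 < (2 / π) ^ 2 := by positivity
  nlinarith

theorem main : ∃ n : ℕ, 2 < n ∧ ∃ (A : Matrix (Fin n) (Fin n) ℝ) (C : ℝ),
    C < 2 ^ (5 / 4 : ℝ) / √π * (Gamma ((n + 1) / 2) / Gamma (n / 2)) *
      ((n + 2 : ℝ) ^ (1 / 4 : ℝ) / (n : ℝ) ^ (3 / 4 : ℝ)) *
      (∫ u, nrm A u.1.ofLp ^ (4 : ℝ) ∂sig n) ^ (1 / 4 : ℝ) ∧
    ∀ B : Matrix (Fin n) (Fin n) ℝ, (∫ u, nrm B u.1.ofLp ^ (1 : ℝ) ∂sig n) ^ (1 / 1 : ℝ) ≤ 1 →
      (Aᵀ * B).trace / n ≤ C := by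
  obtain ⟨m, hm⟩ : ∃ m : ℕ, m = 10000 := ⟨_, rfl⟩
  have hm' : (m : ℝ) = 10000 := by rw [hm]; norm_num
  have hh : ∀ (A : Matrix (Fin (m + 1)) (Fin (m + 1)) ℝ) (r : ℝ), 0 < r → ∀ x,
      nrm A (r • x) = r ^ 1 * nrm A x := fun A r hr x => by
    simp only [nrm, mulVec_smul, Pi.smul_apply, smul_eq_mul, mul_pow, ← Finset.mul_sum]
    rw [sqrt_mul (sq_nonneg _), sqrt_sq hr.le, pow_one]
  have r0 := rho_pos m
  refine ⟨m + 1, by omega, diagonal d, rho (m + 1) / rho m / (m + 1 : ℕ), ?_, fun B hB => ?_⟩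
  · have e : ∀ x, nrm (diagonal d) x ^ 4 = (∑ i : Fin (m + 1), d i ^ 2 * x i ^ 2) ^ 2 := fun x => by
      rw [show 4 = 2 * 2 from rfl, pow_mul, nrm, sq_sqrt (by positivity)]
      simp only [mulVec_diagonal, mul_pow]
    obtain ⟨v1, -, v3⟩ := var fun i : Fin (m + 1) => d i ^ 2
    have h1 := hom m 4 (fun x => nrm (diagonal d) x ^ 4) (fun r hr x => by
      rw [hh _ r hr, pow_one, mul_pow]) (by simpa only [e] using v1.integrable_sq)
    rw [show ∫ x, nrm (diagonal d) x ^ 4 ∂GG (m + 1) = _ by simpa only [e] using v3,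
      rho_add (m + 2), rho_add m] at h1
    have h2 := Q hm'
    rw [h1] at h2
    simp only [rpow_ofNat]
    have h0 : 0 ≤ ∫ u, nrm (diagonal d) u.1.ofLp ^ 4 ∂sig (m + 1) :=
      integral_nonneg fun u => by positivity
    generalize ∫ u, nrm (diagonal d) u.1.ofLp ^ 4 ∂sig (m + 1) = I at *
    have g1 := Gamma_pos_of_pos (s := (m + 1) / 2) (by positivity)
    have g2 := Gamma_pos_of_pos (s := ((m + 1 : ℕ) + 1) / 2) (by positivity)
    have e2 : rho (m + 1) / rho m = √2 * (Gamma (((m + 1 : ℕ) + 1) / 2) /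
        Gamma ((m + 1 : ℕ) / 2)) := by
      rw [rho_eq, rho_eq, pow_succ _ (m + 1)]
      push_cast
      field_simp
    have g3 : 0 < Gamma (((m + 1 : ℕ) + 1) / 2) / Gamma ((m + 1 : ℕ) / 2) := by
      push_cast at g2 ⊢; positivity
    rw [e2]
    generalize Gamma (((m + 1 : ℕ) + 1) / 2) / Gamma ((m + 1 : ℕ) / 2) = G at *
    have p4 : ∀ x a : ℝ, 0 ≤ x → (x ^ (a / 4)) ^ 4 = x ^ a := fun x a hx => by
      rw [← rpow_natCast, ← rpow_mul hx]; norm_num
    have hp := pi_pos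
    refine lt_of_pow_lt_pow_left₀ 4 (by positivity) ?_
    have s4 : ∀ x : ℝ, 0 ≤ x → √x ^ 4 = x ^ 2 := fun x hx => by
      rw [show 4 = 2 * 2 from rfl, pow_mul, sq_sqrt hx]
    simp only [mul_pow, div_pow]
    rw [p4 _ _ zero_le_two, p4 _ _ h0, p4 _ _ (by positivity), p4 _ _ (by positivity),
      s4 _ hp.le, s4 _ zero_le_two, rpow_one, rpow_one, rpow_ofNat, rpow_ofNat]
    rw [← mul_assoc, mul_div_cancel_right₀ _ r0.ne', div_lt_iff₀ (by norm_num)] at h2
    push_cast at h2 ⊢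
    rw [hm'] at h2 ⊢
    have : 0 < G ^ 4 := by positivity
    field_simp
    nlinarith
  · simp only [div_one, rpow_one] at hB
    refine div_le_div_of_nonneg_right ?_ (by positivity)
    have h1 := key B
    rw [hom m 1 _ (hh B) (nint B)] at h1
    have := rho_pos (m + 1)
    refine le_trans (le_of_eq ?_) (h1.trans (mul_le_of_le_one_right (by positivity) hB))
    simp [trace, diagonal_mul]

end Pool.Agent.H.MP_1d723d_an
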